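import Pool.Agent.H32.N6W.Targets

/-!
MP_63b6b1_nt, board n6w_modules, row ADF: the symbols above a finite place.
-/

set_option autoImplicit false

open Polynomial NumberField IsDedekindDomain Matrix Pool.Agent.H32.QC Pool.Agent.H34.N6
open Pool.Agent.H13.DEV Pool.Agent.H34.N6V Pool.Agent.H63.WT Pool.Agent.H32.N6W

namespace Pool.Agent.H76.N6W

/-- the symbol modulo a monic irreducible polynomial -/
theorem hpr_irr {F : Type} [Field F] {p : F[X]} (h1 : p.Monic) (h2 : Irreducible p)
    (a b : F[X]) : hpr p a b = hm p a b := by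
  classical
  unfold hpr
  rw [UniqueFactorizationMonoid.normalizedFactors_irreducible h2, Multiset.map_singleton,
    Multiset.prod_singleton, h1.normalize_eq_self]

theorem pf_ADF (hDEC : T_DEC) (hHMS : T_HMS) (hHPM : T_HPM) : T_ADF := by
  intro k L _ _ _ _ _ P D e v B hP hG
  obtain ⟨T, _, w, p, h⟩ := hDEC k L P e v hP hG
  set g : T → Pl L := fun i => Sum.inl (w i) with hg
  have hginj : Function.Injective g := fun i j hij => h.inj (Sum.inl_injective hij)
  have hmem : ∀ u : Pl L, bel (k := k) u = Sum.inl v ↔ u ∈ Set.range g := by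
    intro u
    cases u with
    | inl u =>
      have e1 : (bel (k := k) (Sum.inl u : Pl L) = Sum.inl v) ↔ u.under (𝓞 k) = v := by
        constructor
        · intro hh
          exact Sum.inl_injective hh
        · intro hh
          exact congrArg Sum.inl hh
      rw [e1, h.mem u]
      constructor
      · rintro ⟨i, hi⟩
        exact ⟨i, congrArg Sum.inl hi⟩
      · rintro ⟨i, hi⟩
        exact ⟨i, Sum.inl_injective hi⟩
    | inr φ =>
      constructor
      · intro hh
        exact absurd hh Sum.inr_ne_inl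
      · rintro ⟨i, hi⟩
        exact absurd hi Sum.inl_ne_inr
  have hth : th D e (Sum.inl v) B = ∏ i, hs (g i) (aeval e B) (aeval e D) := by
    unfold th
    have e1 : (∏ᶠ (w : Pl L) (_ : bel (k := k) w = Sum.inl v), hs w (aeval e B) (aeval e D)) =
        ∏ᶠ (u : Pl L) (_ : u ∈ Set.range g), hs u (aeval e B) (aeval e D) :=
      finprod_congr fun u => finprod_congr_Prop (propext (hmem u)) fun _ => rfl
    rw [e1, finprod_mem_range hginj, finprod_eq_prod_of_fintype]
  rw [hth, h.prod, hHPM _ T Finset.univ p _ _ fun i _ => (h.irr i).1.ne_zero]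
  refine Finset.prod_congr rfl fun i _ => ?_
  rw [hpr_irr (h.irr i).1 (h.irr i).2]
  obtain ⟨φ, -, hφ, hsur, hker⟩ := h.ev i
  have hcomp : φ.comp (ic v) = kc k (w i) := RingHom.ext hφ
  have hev : ∀ Q : k[X], eval₂RingHom φ (ic (w i) e) (Q.map (ic v)) = ic (w i) (aeval e Q) := by
    intro Q
    rw [coe_eval₂RingHom, eval₂_map, hcomp, aeval_def, Polynomial.hom_eval₂]
  have hmain := hHMS _ _ (eval₂RingHom φ (ic (w i) e)) (p i) (B.map (ic v)) (D.map (ic v))
    (fun y => hsur y) (fun Q => hker Q)
  rw [hmain, hev, hev]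
  rfl

end Pool.Agent.H76.N6W
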